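import Pool.Agent.Lib.MP_25e40f_pr.Stmt
import Pool.Agent.Lib.MP_25e40f_pr.G.EndB

/-!
# MP_25e40f_pr: the definitions of the statement and the ones used in the proof agree
-/

set_option autoImplicit false

noncomputable section

open MeasureTheory Filter
open scoped Classical

namespace IPC

variable {d : ℕ}

theorem nbr_iff (x y : Fin d → ℤ) : InvPerc.Nbr x y ↔ y ∈ nbZ d x := by
  rw [slabBb_mem_nbZ]
  unfold InvPerc.Nbr
  constructor
  · intro h
    have h1 : ∃ i, |x i - y i| ≠ 0 := by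
      by_contra hc
      push_neg at hc
      rw [Finset.sum_eq_zero fun i _ => hc i] at h
      exact zero_ne_one h
    obtain ⟨i, hi⟩ := h1
    have h2 := Finset.add_sum_erase Finset.univ (fun i => |x i - y i|) (Finset.mem_univ i)
    have h3 : 0 ≤ ∑ k ∈ Finset.univ.erase i, |x k - y k| := Finset.sum_nonneg fun k _ => abs_nonneg _
    have h4 : 0 ≤ |x i - y i| := abs_nonneg _
    have h5 : |x i - y i| = 1 ∧ ∑ k ∈ Finset.univ.erase i, |x k - y k| = 0 := by
      rw [h] at h2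
      have h6 : |x i - y i| + ∑ k ∈ Finset.univ.erase i, |x k - y k| = 1 := h2
      constructor <;> omega
    refine ⟨i, ?_, fun k hk => ?_⟩
    · rcases (abs_eq (by norm_num : (0 : ℤ) ≤ 1)).1 h5.1 with h6 | h6
      · right; linarith
      · left; linarith
    · have h6 := (Finset.sum_eq_zero_iff_of_nonneg fun k _ => abs_nonneg (x k - y k)).1 h5.2 k
        (Finset.mem_erase.2 ⟨hk, Finset.mem_univ k⟩)
      have h7 := abs_eq_zero.1 h6
      linarith
  · rintro ⟨i, hi, hk⟩
    rw [← Finset.add_sum_erase Finset.univ (fun i => |x i - y i|) (Finset.mem_univ i)]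
    have h1 : ∑ k ∈ Finset.univ.erase i, |x k - y k| = 0 := by
      refine Finset.sum_eq_zero fun k hk' => ?_
      rw [hk k (Finset.ne_of_mem_erase hk'), sub_self, abs_zero]
    rw [h1, add_zero]
    rcases hi with hi | hi
    · rw [hi]
      have h2 : x i - (x i + 1) = -1 := by ring
      rw [h2]
      rfl
    · rw [hi]
      have h2 : x i - (x i - 1) = 1 := by ring
      rw [h2]
      rfl

theorem invaded_iff (U : Sym2 (Fin d → ℤ) → ℝ) (t : ℕ) (A : Finset (Fin d → ℤ)) :
    InvPerc.Invaded U t A ↔ Inv (nbZ d) 0 U t A := by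
  constructor
  · intro h
    induction h with
    | zero => exact Inv.zero
    | step t A x y _ hx hy hxy hm ih =>
      refine Inv.step t A (x, y) ih (mem_bd.2 ⟨hx, (nbr_iff x y).1 hxy, hy⟩) ?_
      intro r hr
      rw [mem_bd] at hr
      exact hm r.1 r.2 hr.1 hr.2.2 ((nbr_iff _ _).2 hr.2.1)
  · intro h
    induction h with
    | zero => exact InvPerc.Invaded.zero
    | step t A q _ hq hm ih =>
      rw [mem_bd] at hq
      refine InvPerc.Invaded.step t A q.1 q.2 ih hq.1 hq.2.2 ((nbr_iff _ _).2 hq.2.1) ?_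
      intro x' y' hx' hy' hxy'
      exact hm (x', y') (mem_bd.2 ⟨hx', (nbr_iff _ _).1 hxy', hy'⟩)

theorem ipc_eq (U : Sym2 (Fin d → ℤ) → ℝ) : InvPerc.ipc U = ipc (nbZ d) 0 U := by
  ext v
  constructor
  · rintro ⟨t, A, h, hv⟩
    exact ⟨t, A, (invaded_iff U t A).1 h, hv⟩
  · rintro ⟨t, A, h, hv⟩
    exact ⟨t, A, (invaded_iff U t A).2 h, hv⟩

theorem mem_cluster_iff (p : ℝ) (U : Sym2 (Fin d → ℤ) → ℝ) (x y : Fin d → ℤ) :
    y ∈ InvPerc.cluster p U x ↔ Con (nbZ d) Set.univ p U x y := by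
  have h : (fun a b : Fin d → ℤ => InvPerc.Nbr a b ∧ U s(a, b) ≤ p) =
      fun a b => a ∈ (Set.univ : Set (Fin d → ℤ)) ∧ b ∈ (Set.univ : Set (Fin d → ℤ)) ∧ b ∈ nbZ d a ∧
        U s(a, b) ≤ p := by
    funext a b
    rw [nbr_iff]
    simp
  show Relation.ReflTransGen _ x y ↔ x ∈ Set.univ ∧ Relation.ReflTransGen _ x y
  rw [h]
  simp

theorem cluster_eq (p : ℝ) (U : Sym2 (Fin d → ℤ) → ℝ) (x : Fin d → ℤ) :
    InvPerc.cluster p U x = clu (nbZ d) Set.univ p U x := by
  ext y
  exact mem_cluster_iff p U x y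

theorem weights_eq (d : ℕ) : InvPerc.weights d = nu (Fin d → ℤ) := rfl

theorem pc_eq' (d : ℕ) : InvPerc.pc d = pcZ d := by
  unfold InvPerc.pc pcZ
  rw [weights_eq]
  simp only [cluster_eq]

end IPC
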