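import Pool.Agent.Lib.MP_25e40f_pr.Fin.Main

/-!
# MP_25e40f_pr: the theorem, from the outputs of the streams
-/

set_option autoImplicit false

noncomputable section

open MeasureTheory Filter
open scoped Classical

namespace IPC

/-- the statement of the result -/
theorem final (hB : ∃ (n₀ : ℕ) (C₀ : ℝ), DP.Boot n₀ C₀) (hU : ∀ d : ℕ, 1 ≤ d → DP.Uniq d)
    (hL : ∀ d : ℕ, 1 ≤ d → (Zg d).pc < 1 / 2 → 0 < (Zg d).pc → LowB d)
    (hT : ∃ d₀ : ℕ, ∀ d : ℕ, d₀ ≤ d → TOne d) :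
    ∃ d₀ : ℕ, ∀ d : ℕ, d₀ ≤ d → (∀ x : Fin d → ℤ,
      0 < (InvPerc.weights d).real {U | x ∈ InvPerc.cluster (InvPerc.pc d) U 0} ∧
      0 < (InvPerc.weights d).real {U | x ∈ InvPerc.ipc U}) ∧
    ∀ (K : Finset (Fin d → ℤ)) (𝓕 : Set (Finset (Fin d → ℤ))), ∃ l : ℝ,
      Tendsto (fun x => (InvPerc.weights d).real
        {U | x ∈ InvPerc.cluster (InvPerc.pc d) U 0 ∧
          (K.filter fun z => z ∈ InvPerc.cluster (InvPerc.pc d) U 0) ∈ 𝓕} /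
        (InvPerc.weights d).real {U | x ∈ InvPerc.cluster (InvPerc.pc d) U 0})
        cofinite (nhds l) ∧
      Tendsto (fun x => (InvPerc.weights d).real
        {U | x ∈ InvPerc.ipc U ∧ (K.filter fun z => x + z ∈ InvPerc.ipc U) ∈ 𝓕} /
        (InvPerc.weights d).real {U | x ∈ InvPerc.ipc U})
        cofinite (nhds l) := by
  obtain ⟨n₀, C₀, hB⟩ := hB
  obtain ⟨n₁, _, hG⟩ := DP.exists_good hB
  obtain ⟨d₁, hT⟩ := hT
  refine ⟨max (n₁ + 1) (d₁ + 1), fun d hd => ?_⟩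
  obtain ⟨n, rfl⟩ : ∃ n, d = n + 1 := ⟨d - 1, by
    have := (le_max_left (n₁ + 1) (d₁ + 1)).trans hd
    omega⟩
  have hn : n₁ ≤ n := by
    have := (le_max_left (n₁ + 1) (d₁ + 1)).trans hd
    omega
  have hd1 : d₁ ≤ n + 1 := by
    have := (le_max_right (n₁ + 1) (d₁ + 1)).trans hd
    omega
  have hle : (Zg (n + 1)).pc ≤ 1 / 4 := DP.pcZ_le hG (hn.trans (Nat.le_succ n))
  have hpos : 0 < (Zg (n + 1)).pc := DP.pc_pos (Nat.succ_pos n)
  exact final_dim (ghyp hG hn (hU _ (Nat.succ_pos n)) (hL _ (Nat.succ_pos n) (by linarith) hpos)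
    (hT _ hd1))

end IPC
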