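import Pool.Agent.Lib.MP_25e40f_pr.Fin.Bridge
import Pool.Agent.Lib.MP_25e40f_pr.DP.Slb

/-!
# MP_25e40f_pr: final assembly from the outputs of the streams D, U, S, F, G
-/

set_option autoImplicit false

noncomputable section

open MeasureTheory Filter
open scoped Classical

namespace IPC

/-- output of stream S: lower bound of the two point function inside a box -/
def LowB (d : ℕ) : Prop := ∃ c : ℝ, 0 < c ∧ ∃ β : ℕ, ∀ (R : ℕ) (x y : Fin d → ℤ), 1 ≤ R →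
  nrm (x - y) ≤ R → c * ((R : ℝ) ^ β)⁻¹ ≤ (Zg d).tauD (Zg d).pc (box x (4 * R)) x y

/-- output of stream F -/
def TOne (d : ℕ) : Prop := ∀ F : Finset (Fin d → ℤ), (0 : Fin d → ℤ) ∈ F →
    ∃ ι : ℝ, ∀ ε : ℝ, 0 < ε → ∃ ρ : ℕ,
  ∀ (D : Finset (Fin d → ℤ)) (v x : Fin d → ℤ), v ∈ D → box x ρ ⊆ D → v ∉ box x ρ →
    |Pr (Zg d).pc ((Zg d).ein D) (fun ω => AllConn ω (F.image (fun f => x + f)) v) -
      ι * (Zg d).tauD (Zg d).pc D x v| ≤ ε * (Zg d).tauD (Zg d).pc D x v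

theorem nrm_le_norm {d : ℕ} (x : Fin d → ℤ) : (nrm x : ℝ) ≤ ‖x‖ := by
  rcases Nat.eq_zero_or_pos (nrm x) with h0 | h0
  · rw [h0, Nat.cast_zero]
    exact norm_nonneg x
  · have hne : (Finset.univ : Finset (Fin d)).Nonempty := by
      by_contra hc
      rw [Finset.not_nonempty_iff_eq_empty] at hc
      have h1 : nrm x = 0 := by
        unfold nrm
        rw [hc]
        rfl
      omega
    obtain ⟨i, _, hi⟩ := Finset.exists_mem_eq_sup Finset.univ hne fun i => (x i).natAbs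
    have h1 : nrm x = (x i).natAbs := hi
    rw [h1]
    have h2 : (((x i).natAbs : ℕ) : ℝ) = ‖x i‖ := by
      rw [Int.norm_eq_abs, Nat.cast_natAbs, Int.cast_abs]
    rw [h2]
    exact norm_le_pi_norm x i

theorem ghyp {n₁ : ℕ} (h : DP.Good n₁) {n : ℕ} (hn : n₁ ≤ n) (hU : DP.Uniq (n + 1))
    (hL : LowB (n + 1)) (hT : TOne (n + 1)) : GHyp n := by
  have hpos : 0 < (Zg (n + 1)).pc := DP.pc_pos (Nat.succ_pos n)
  have hle : (Zg (n + 1)).pc ≤ 1 / 4 := DP.pcZ_le h (hn.trans (Nat.le_succ n))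
  refine ⟨hpos, by linarith, DP.noPerc_pc h (hn.trans (Nat.le_succ n)) hU, ?_, ?_, ?_⟩
  · intro p' hp' hp'1
    exact DP.slab_perc h hn hU hp' hp'1
  · obtain ⟨c, hc, β, hcβ⟩ := hL
    refine ⟨c, β, hc, fun x => ?_⟩
    have h1 := hcβ (max 1 (nrm x)) 0 x (le_max_left _ _) (by
      have h2 : nrm (0 - x) = nrm x := by
        unfold nrm
        congr 1
        funext i
        simp
      rw [h2]
      exact le_max_right _ _)
    have h3 : (Zg (n + 1)).tauD (Zg (n + 1)).pc (box 0 (4 * max 1 (nrm x))) 0 x ≤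
        (Zg (n + 1)).tau (Zg (n + 1)).pc 0 x := T.tauD_le_tau _ hpos.le (by linarith) _ _ _
    have h4 : ((max 1 (nrm x) : ℕ) : ℝ) ≤ 1 + ‖x‖ := by
      have h5 := nrm_le_norm x
      have h6 : (0 : ℝ) ≤ ‖x‖ := norm_nonneg x
      rcases le_total 1 (nrm x) with h7 | h7
      · rw [max_eq_right h7]
        linarith
      · rw [max_eq_left h7]
        push_cast
        linarith
    have h5 : (0 : ℝ) < ((max 1 (nrm x) : ℕ) : ℝ) := by
      have : 0 < max 1 (nrm x) := lt_of_lt_of_le Nat.one_pos (le_max_left _ _)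
      exact_mod_cast this
    have h6 : ((max 1 (nrm x) : ℕ) : ℝ) ^ β ≤ (1 + ‖x‖) ^ β := pow_le_pow_left₀ h5.le h4 β
    have h7 : 0 < ((max 1 (nrm x) : ℕ) : ℝ) ^ β := pow_pos h5 β
    calc c = c * (((max 1 (nrm x) : ℕ) : ℝ) ^ β)⁻¹ * ((max 1 (nrm x) : ℕ) : ℝ) ^ β := by
          rw [mul_assoc, inv_mul_cancel₀ h7.ne', mul_one]
      _ ≤ (Zg (n + 1)).tau (Zg (n + 1)).pc 0 x * (1 + ‖x‖) ^ β :=
          mul_le_mul (h1.trans h3) h6 h7.le (T.tau_nonneg _ hpos.le (by linarith) _ _)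
  · intro F hF
    exact hT F hF

/-- the probabilities in the denominators are positive -/
theorem ghyp_pos {n : ℕ} (h : GHyp n) (x : Fin (n + 1) → ℤ) :
    0 < (nu (Fin (n + 1) → ℤ)).real {U | Con (nbZ (n + 1)) Set.univ (pcZ (n + 1)) U 0 x} ∧
    0 < (nu (Fin (n + 1) → ℤ)).real {U | x ∈ ipc (nbZ (n + 1)) 0 U} := by
  obtain ⟨c, β, hc, hlow⟩ := h.low
  have hx : 0 < (Zg (n + 1)).tau (Zg (n + 1)).pc 0 x := by
    by_contra hx
    have h1 := hlow x
    have h2 : (Zg (n + 1)).tau (Zg (n + 1)).pc 0 x * (1 + ‖x‖) ^ β ≤ 0 :=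
      mul_nonpos_of_nonpos_of_nonneg (not_lt.1 hx) (by positivity)
    linarith
  rw [pc_eq]
  constructor
  · have h1 := tau_eq (Zg (n + 1)) h.pos.le h.lt.le 0 x
    rw [h1] at hx
    exact hx
  · exact hx.trans_le (tau_le_fI (Zg (n + 1)) 0 x h.pos.le h.lt.le
      (fin1_ae (Zg (n + 1)) h.pos.le h.lt.le h.noPerc))

/-- final form, for one dimension -/
theorem final_dim {n : ℕ} (h : GHyp n) :
    (∀ x : Fin (n + 1) → ℤ,
      0 < (InvPerc.weights (n + 1)).real {U | x ∈ InvPerc.cluster (InvPerc.pc (n + 1)) U 0} ∧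
      0 < (InvPerc.weights (n + 1)).real {U | x ∈ InvPerc.ipc U}) ∧
    ∀ (K : Finset (Fin (n + 1) → ℤ)) (𝓕 : Set (Finset (Fin (n + 1) → ℤ))), ∃ l : ℝ,
      Tendsto (fun x => (InvPerc.weights (n + 1)).real
        {U | x ∈ InvPerc.cluster (InvPerc.pc (n + 1)) U 0 ∧
          (K.filter fun z => z ∈ InvPerc.cluster (InvPerc.pc (n + 1)) U 0) ∈ 𝓕} /
        (InvPerc.weights (n + 1)).real {U | x ∈ InvPerc.cluster (InvPerc.pc (n + 1)) U 0})
        cofinite (nhds l) ∧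
      Tendsto (fun x => (InvPerc.weights (n + 1)).real
        {U | x ∈ InvPerc.ipc U ∧ (K.filter fun z => x + z ∈ InvPerc.ipc U) ∈ 𝓕} /
        (InvPerc.weights (n + 1)).real {U | x ∈ InvPerc.ipc U})
        cofinite (nhds l) := by
  simp only [pc_eq', weights_eq, mem_cluster_iff, ipc_eq]
  exact ⟨fun x => ghyp_pos h x, fun K 𝓕 => stream_G h K 𝓕⟩

end IPC
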