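import Pool.Agent.Lib.MP_25e40f_pr.Fin.Final
import Pool.Agent.Lib.MP_25e40f_pr.IfU
import Pool.Agent.Lib.MP_25e40f_pr.DC.Boot
import Pool.Agent.Lib.MP_25e40f_pr.W.Glue

/-!
# MP_25e40f_pr: outputs of the streams S, U in the form used by the final theorem
-/

set_option autoImplicit false

noncomputable section

open MeasureTheory Filter
open scoped Classical

namespace IPC

theorem decW_top : DC.DecW := fun n hn ι _ _ H p hp0 hp hp2 => decay_W n hn ι H p hp0 hp hp2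

theorem uniq_top : ∀ d, 1 ≤ d → DP.Uniq d := fun d hd p hp0 hp1 h => uniqueness d hd p hp0 hp1 h

theorem low_top : ∀ d, 1 ≤ d → (Zg d).pc < 1 / 2 → 0 < (Zg d).pc → LowB d :=
  fun d hd h1 h0 => tau_box_lower d hd h1 h0

theorem bootS_top (hI : ∃ (n₀ : ℕ) (C₀ : ℝ), BS.Improve n₀ C₀) : ∃ (n₀ : ℕ) (C₀ : ℝ), BootS n₀ C₀ := by
  obtain ⟨n₀, C₀, _, _, h⟩ := DC.boot_strong decW_top hI
  exact ⟨n₀, C₀, fun n hn ι _ _ _ H hH p hp0 hp hp2 => h n hn ι H hH p hp0 hp hp2⟩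

theorem final_of (hI : ∃ (n₀ : ℕ) (C₀ : ℝ), BS.Improve n₀ C₀)
    (hT : ∃ d₀ : ℕ, ∀ d : ℕ, d₀ ≤ d → TOne d) :
    ∃ d₀ : ℕ, ∀ d : ℕ, d₀ ≤ d → (∀ x : Fin d → ℤ,
      0 < (InvPerc.weights d).real {U | x ∈ InvPerc.cluster (InvPerc.pc d) U 0} ∧
      0 < (InvPerc.weights d).real {U | x ∈ InvPerc.ipc U}) ∧
    ∀ (K : Finset (Fin d → ℤ)) (𝓕 : Set (Finset (Fin d → ℤ))), ∃ l : ℝ,
      Tendsto (fun x => (InvPerc.weights d).real
        {U | x ∈ InvPerc.cluster (InvPerc.pc d) U 0 ∧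
          (K.filter fun z => z ∈ InvPerc.cluster (InvPerc.pc d) U 0) ∈ 𝓕} /
        (InvPerc.weights d).real {U | x ∈ InvPerc.cluster (InvPerc.pc d) U 0})
        cofinite (nhds l) ∧
      Tendsto (fun x => (InvPerc.weights d).real
        {U | x ∈ InvPerc.ipc U ∧ (K.filter fun z => x + z ∈ InvPerc.ipc U) ∈ 𝓕} /
        (InvPerc.weights d).real {U | x ∈ InvPerc.ipc U})
        cofinite (nhds l) :=
  final (DC.boot decW_top hI) uniq_top low_top hT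

end IPC
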