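import Pool.Agent.Lib.MP_25e40f_pr.Fin.Bridge

/-!
# MP_25e40f_pr: sanity checks of the definitions of the statement

The events of the statement are measurable; almost surely, for every `t` there is exactly one set `V_t`, it has `t + 1` elements, and
the invasion percolation cluster is infinite.
-/

set_option autoImplicit false

noncomputable section

open MeasureTheory Filter
open scoped Classical

namespace IPC

variable {d : ℕ}

theorem sanity_ipc (x : Fin d → ℤ) : MeasurableSet {U : Sym2 (Fin d → ℤ) → ℝ | x ∈ InvPerc.ipc U} := by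
  have h : {U : Sym2 (Fin d → ℤ) → ℝ | x ∈ InvPerc.ipc U} = {U | x ∈ ipc (nbZ d) 0 U} := by
    ext U
    show x ∈ InvPerc.ipc U ↔ x ∈ ipc (nbZ d) 0 U
    rw [ipc_eq]
  rw [h]
  exact meas_ipc (nbZ d) 0 x

theorem sanity_cluster (p : ℝ) (x y : Fin d → ℤ) :
    MeasurableSet {U : Sym2 (Fin d → ℤ) → ℝ | y ∈ InvPerc.cluster p U x} := by
  have h : {U : Sym2 (Fin d → ℤ) → ℝ | y ∈ InvPerc.cluster p U x} =
      {U | Con (nbZ d) Set.univ p U x y} := by
    ext U
    exact mem_cluster_iff p U x y
  rw [h]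
  exact meas_con (Zg d) Set.univ p x y

theorem sanity_filter {Ω V : Type} [MeasurableSpace Ω] [DecidableEq V] (E : V → Set Ω)
    (hE : ∀ v, MeasurableSet (E v)) (K : Finset V) (F : Set (Finset V)) :
    MeasurableSet {w | (K.filter fun z => w ∈ E z) ∈ F} := by
  have h : {w | (K.filter fun z => w ∈ E z) ∈ F} =
      ⋃ T ∈ (K.powerset : Finset (Finset V)), ⋃ (_ : T ∈ F), ⋂ z ∈ K, {w | w ∈ E z ↔ z ∈ T} := by
    ext w
    simp only [Set.mem_iUnion, Set.mem_iInter]
    constructor
    · intro h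
      refine ⟨K.filter fun z => w ∈ E z, Finset.mem_powerset.2 (Finset.filter_subset _ _), h,
        fun z hz => ?_⟩
      show w ∈ E z ↔ z ∈ K.filter fun z => w ∈ E z
      rw [Finset.mem_filter]
      exact ⟨fun h => ⟨hz, h⟩, fun h => h.2⟩
    · rintro ⟨T, hT, hTF, h⟩
      show (K.filter fun z => w ∈ E z) ∈ F
      have h1 : (K.filter fun z => w ∈ E z) = T := by
        ext z
        rw [Finset.mem_filter]
        constructor
        · rintro ⟨hz, hw⟩
          exact (h z hz).1 hw
        · intro hz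
          have hzK := Finset.mem_powerset.1 hT hz
          exact ⟨hzK, (h z hzK).2 hz⟩
      rw [h1]
      exact hTF
  rw [h]
  refine Finset.measurableSet_biUnion _ fun T _ => MeasurableSet.iUnion fun _ =>
    Finset.measurableSet_biInter _ fun z _ => ?_
  by_cases hz : z ∈ T
  · have h1 : {w | w ∈ E z ↔ z ∈ T} = E z := by
      ext w
      show (w ∈ E z ↔ z ∈ T) ↔ w ∈ E z
      tauto
    rw [h1]
    exact hE z
  · have h1 : {w | w ∈ E z ↔ z ∈ T} = (E z)ᶜ := by
      ext w
      show (w ∈ E z ↔ z ∈ T) ↔ w ∉ E z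
      tauto
    rw [h1]
    exact (hE z).compl

theorem sanity_event1 (p : ℝ) (x : Fin d → ℤ) (K : Finset (Fin d → ℤ)) (F : Set (Finset (Fin d → ℤ))) :
    MeasurableSet {U : Sym2 (Fin d → ℤ) → ℝ | x ∈ InvPerc.cluster p U 0 ∧
      (K.filter fun z => z ∈ InvPerc.cluster p U 0) ∈ F} :=
  (sanity_cluster p 0 x).inter
    (sanity_filter (fun z => {U | z ∈ InvPerc.cluster p U 0}) (fun z => sanity_cluster p 0 z) K F)

theorem sanity_event2 (x : Fin d → ℤ) (K : Finset (Fin d → ℤ)) (F : Set (Finset (Fin d → ℤ))) :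
    MeasurableSet {U : Sym2 (Fin d → ℤ) → ℝ | x ∈ InvPerc.ipc U ∧
      (K.filter fun z => x + z ∈ InvPerc.ipc U) ∈ F} :=
  (sanity_ipc x).inter
    (sanity_filter (fun z => {U | x + z ∈ InvPerc.ipc U}) (fun z => sanity_ipc (x + z)) K F)

theorem sanity_bd (hd : 1 ≤ d) (A : Finset (Fin d → ℤ)) (h0 : A.Nonempty) :
    (bd (nbZ d) A).Nonempty := by
  -- the vertex of `A` with the largest first coordinate
  let i : Fin d := ⟨0, hd⟩
  obtain ⟨x, hx, hmax⟩ := A.exists_max_image (fun x => x i) h0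
  refine ⟨(x, Function.update x i (x i + 1)), mem_bd.2 ⟨hx, ?_, ?_⟩⟩
  · show Function.update x i (x i + 1) ∈ nbZ d x
    rw [← nbr_iff]
    unfold InvPerc.Nbr
    rw [← Finset.add_sum_erase Finset.univ _ (Finset.mem_univ i), Function.update_self]
    have h1 : ∑ k ∈ Finset.univ.erase i, |x k - Function.update x i (x i + 1) k| = 0 := by
      refine Finset.sum_eq_zero fun k hk => ?_
      rw [Function.update_of_ne (Finset.ne_of_mem_erase hk), sub_self, abs_zero]
    rw [h1]
    have h2 : x i - (x i + 1) = -1 := by ring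
    rw [h2]
    rfl
  · intro h
    have h1 := hmax _ h
    have h2 : Function.update x i (x i + 1) i = x i + 1 := Function.update_self _ _ _
    have h3 : Function.update x i (x i + 1) i ≤ x i := h1
    rw [h2] at h3
    omega

/-- almost surely, for every `t` there is exactly one invaded set `V_t`, and it has `t + 1` elements -/
theorem sanity_invaded (hd : 1 ≤ d) : ∀ᵐ U ∂(InvPerc.weights d), ∀ t, ∃ A : Finset (Fin d → ℤ),
    InvPerc.Invaded U t A ∧ A.card = t + 1 ∧ ∀ B, InvPerc.Invaded U t B → B = A := by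
  rw [weights_eq]
  filter_upwards [nu_inj (V := Fin d → ℤ)] with U hU t
  have h1 : ∃ A, Inv (nbZ d) 0 U t A := by
    induction t with
    | zero => exact ⟨_, Inv.zero⟩
    | succ t ih =>
      obtain ⟨A, hA⟩ := ih
      obtain ⟨q, hq⟩ := exists_amin (N := nbZ d) (A := A) U (sanity_bd hd A ⟨0, hA.mem_o⟩)
      exact ⟨_, hA.next hq⟩
  obtain ⟨A, hA⟩ := h1
  refine ⟨A, (invaded_iff U t A).2 hA, hA.card, fun B hB => ?_⟩
  exact Inv.uniq hU ((invaded_iff U t B).1 hB) hA

/-- almost surely the invasion percolation cluster is infinite -/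
theorem sanity_infinite (hd : 1 ≤ d) : ∀ᵐ U ∂(InvPerc.weights d), (InvPerc.ipc U).Infinite := by
  filter_upwards [sanity_invaded hd] with U hU hfin
  obtain ⟨A, hA, hc, -⟩ := hU hfin.toFinset.card
  have h1 : A ⊆ hfin.toFinset := by
    intro v hv
    rw [Set.Finite.mem_toFinset]
    exact ⟨_, A, hA, hv⟩
  have h2 := Finset.card_le_card h1
  omega

end IPC
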