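import Pool.Agent.Lib.MP_25e40f_pr.Fin.Pre
import Pool.Agent.Lib.MP_25e40f_pr.F.Out
import Pool.Agent.Lib.MP_25e40f_pr.D.FIa

/-!
# MP_25e40f_pr: the final theorem
-/

set_option autoImplicit false

noncomputable section

open MeasureTheory Filter
open scoped Classical

namespace IPC

theorem tone_top (hI : ∃ (n₀ : ℕ) (C₀ : ℝ), BS.Improve n₀ C₀) : ∃ d₀ : ℕ, ∀ d : ℕ, d₀ ≤ d → TOne d := by
  obtain ⟨n₀, C₀, hB⟩ := bootS_top hI
  exact t_one hB

theorem final_all :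
    ∃ d₀ : ℕ, ∀ d : ℕ, d₀ ≤ d → (∀ x : Fin d → ℤ,
      0 < (InvPerc.weights d).real {U | x ∈ InvPerc.cluster (InvPerc.pc d) U 0} ∧
      0 < (InvPerc.weights d).real {U | x ∈ InvPerc.ipc U}) ∧
    ∀ (K : Finset (Fin d → ℤ)) (𝓕 : Set (Finset (Fin d → ℤ))), ∃ l : ℝ,
      Tendsto (fun x => (InvPerc.weights d).real
        {U | x ∈ InvPerc.cluster (InvPerc.pc d) U 0 ∧
          (K.filter fun z => z ∈ InvPerc.cluster (InvPerc.pc d) U 0) ∈ 𝓕} /
        (InvPerc.weights d).real {U | x ∈ InvPerc.cluster (InvPerc.pc d) U 0})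
        cofinite (nhds l) ∧
      Tendsto (fun x => (InvPerc.weights d).real
        {U | x ∈ InvPerc.ipc U ∧ (K.filter fun z => x + z ∈ InvPerc.ipc U) ∈ 𝓕} /
        (InvPerc.weights d).real {U | x ∈ InvPerc.ipc U})
        cofinite (nhds l) :=
  final_of BS.improve (tone_top BS.improve)

end IPC
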